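import Pool.Agent.H77.OW.Main

/-!
# Every K-trivial set is low for Oberwolfach randomness

Cantor space is `ℕ → Bool`, strings are `List Bool`. Computability relative to a set `O` of oracles
is the one of Mathlib (`RecursiveIn O`, `ComputableIn O`); with the empty set of oracles it is plain
computability (`recursiveIn_empty_iff`). Relative to a set `A` it is `RecursiveIn {chi A}`, where
`chi A` is the characteristic function of `A`.
-/

namespace Pool.Agent.Results.MP_e7a618_lc.KTrivialLow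

open MeasureTheory Encodable Filter Topology

/-- `pre X n` is the initial segment of length `n` of the infinite binary sequence `X`. -/
def pre (X : ℕ → Bool) (n : ℕ) : List Bool := (List.range n).map X

/-- The uniform (fair-coin, Lebesgue) measure on Cantor space. -/
noncomputable def lam : Measure (ℕ → Bool) :=
  Measure.infinitePi (fun _ : ℕ => (PMF.uniformOfFintype Bool).toMeasure)

/-- The characteristic function of the set `A`, as an oracle. -/
def chi (A : ℕ → Bool) : ℕ →. ℕ := fun n => Part.some (if A n then 1 else 0)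

/-- `P` is `Σ⁰₁` relative to `O`: it is the domain of a function that is partial recursive
in `O`. -/
def SigmaOneIn (O : Set (ℕ →. ℕ)) (P : ℕ × List Bool → Prop) : Prop :=
  ∃ f : ℕ × List Bool →. Unit, RecursiveIn O f ∧ ∀ x, P x ↔ (f x).Dom

/-- `G` is a sequence of open sets that is uniformly `Σ⁰₁` relative to `O`: for some `W` that is
`Σ⁰₁` relative to `O`, the set `G m` consists of all `X` with an initial segment `σ` such that
`(m, σ) ∈ W`. -/
def SigmaOpenIn (O : Set (ℕ →. ℕ)) (G : ℕ → Set (ℕ → Bool)) : Prop :=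
  ∃ W : ℕ × List Bool → Prop, SigmaOneIn O W ∧ ∀ m, G m = {X | ∃ n, W (m, pre X n)}

/-- `β` is a sequence of rationals that is computable in `O`. -/
def RatSeqIn (O : Set (ℕ →. ℕ)) (β : ℕ → ℚ) : Prop :=
  ∃ a a' b : ℕ → ℕ, ComputableIn O a ∧ ComputableIn O a' ∧ ComputableIn O b ∧
    ∀ s, β s = ((a s : ℚ) - (a' s : ℚ)) / ((b s : ℚ) + 1)

/-- `(G, β)` is a left-c.e. test relative to `O`, with `b = sup β`: the sequence `G` is descending
and uniformly `Σ⁰₁(O)`, the sequence `β` of rationals is computable in `O`, increasing and has the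
limit `b`, and `λ(G m) = O(b - β m)`. -/
structure IsTestIn (O : Set (ℕ →. ℕ)) (G : ℕ → Set (ℕ → Bool)) (β : ℕ → ℚ) (b : ℝ) : Prop where
  sigma : SigmaOpenIn O G
  comp : RatSeqIn O β
  anti : Antitone G
  mono : StrictMono β
  lim : Tendsto (fun s => (β s : ℝ)) atTop (𝓝 b)
  bound : ∃ C : ℝ, ∀ m, lam (G m) ≤ ENNReal.ofReal (C * (b - β m))

/-- `Z` is Oberwolfach random relative to `O`: it passes all left-c.e. tests relative to `O`. -/
def OWRandomIn (O : Set (ℕ →. ℕ)) (Z : ℕ → Bool) : Prop :=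
  ∀ G β b, IsTestIn O G β b → Z ∉ ⋂ m, G m

/-- `Z` is Oberwolfach random. -/
def OWRandom (Z : ℕ → Bool) : Prop := OWRandomIn ∅ Z

/-- `A` is low for Oberwolfach randomness: every Oberwolfach random set is Oberwolfach random
relative to `A`. -/
def LowForOW (A : ℕ → Bool) : Prop := ∀ Z, OWRandom Z → OWRandomIn {chi A} Z

/-- A machine with prefix-free domain: a partial recursive function from strings to `ℕ` such that
no two different strings of its domain are comparable. -/
structure PFMachine (M : List Bool →. ℕ) : Prop where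
  partrec : Partrec M
  pf : ∀ σ τ, (M σ).Dom → (M τ).Dom → σ <+: τ → σ = τ

/-- The complexity of `x` with respect to the machine `M`: the least length of a description of
`x`. -/
noncomputable def cplx (M : List Bool →. ℕ) (x : ℕ) : ℕ∞ :=
  ⨅ σ : {σ : List Bool // x ∈ M σ}, (σ.1.length : ℕ∞)

/-- `U` is an optimal prefix-free machine. -/
structure Optimal (U : List Bool →. ℕ) : Prop where
  pfm : PFMachine U
  opt : ∀ M, PFMachine M → ∃ c : ℕ, ∀ x, cplx U x ≤ cplx M x + c

/-- `A` is K-trivial: `K(A ↾ n) ≤ K(n) + c` for some `c` and all `n`, where `K = cplx U` for an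
optimal prefix-free machine `U`, and strings are coded by natural numbers. -/
def KTrivial (A : ℕ → Bool) : Prop :=
  ∃ U, Optimal U ∧ ∃ c : ℕ, ∀ n, cplx U (encode (pre A n)) ≤ cplx U n + c

/-! ## Bridging to the forms used in the proof -/

theorem sigma_empty {G : ℕ → Set (ℕ → Bool)} (h : OWR.UnifSigma G) : SigmaOpenIn ∅ G := by
  obtain ⟨W, hW, hG⟩ := h
  refine ⟨fun p => W p.1 p.2, ⟨_, recursiveIn_empty_iff.2 hW, fun x => ?_⟩, hG⟩
  simp [Part.assert]

theorem sigma_oracle {A : ℕ → Bool} {G : ℕ → Set (ℕ → Bool)} (h : SigmaOpenIn {chi A} G) :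
    OWR.UnifSigmaIn A G := by
  obtain ⟨W, ⟨f, hf, hfW⟩, hG⟩ := h
  obtain ⟨Φ, hΦ, eΦ⟩ := OWR.recIn A (f := f) hf
  refine ⟨fun ρ m σ => Φ ρ (m, σ) (), ?_, fun m => ?_⟩
  · exact OWR.re_comp (β := List Bool × (ℕ × List Bool) × Unit)
      (p := fun p => Φ p.1 p.2.1 p.2.2) hΦ
      ((Primrec.fst.pair (Primrec.snd.pair (Primrec.const ()))).to_comp)
  · rw [hG m]
    have key : ∀ σ, W (m, σ) ↔ ∃ k, Φ (OWR.pre A k) (m, σ) () := by
      intro σ
      rw [hfW, ← eΦ, Part.dom_iff_mem]
      exact ⟨fun ⟨y, hy⟩ => hy, fun h => ⟨(), h⟩⟩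
    ext X
    simp only [Set.mem_ofPred_eq, OWR.opn, key]
    rfl

theorem rat_empty {β : ℕ → ℚ} (h : OWR.CompRat β) : RatSeqIn ∅ β := by
  obtain ⟨a, a', b, h1, h2, h3, h4⟩ := h
  exact ⟨a, a', b, h1.computableIn, h2.computableIn, h3.computableIn, h4⟩

theorem rat_oracle {A : ℕ → Bool} {β : ℕ → ℚ} (h : RatSeqIn {chi A} β) : OWR.CompRatIn A β := by
  obtain ⟨a, a', b, h1, h2, h3, h4⟩ := h
  have k1 := RecursiveIn.iff_nat.1 h1
  have k2 := RecursiveIn.iff_nat.1 h2
  have k3 := RecursiveIn.iff_nat.1 h3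
  have k4 := Nat.RecursiveIn.pair k1 (Nat.RecursiveIn.pair k2 k3)
  obtain ⟨Φ, hΦ, -, eΦ⟩ := OWR.recIn_nat A k4
  refine ⟨fun ρ s v => Φ ρ s (encode v), ?_, ?_, ?_⟩
  · exact OWR.re_comp (β := List Bool × ℕ × ℕ) (p := fun p => Φ p.1 p.2.1 p.2.2) hΦ
      ((Primrec.fst.pair ((Primrec.fst.comp Primrec.snd).pair
        (Primrec.encode.comp (Primrec.snd.comp Primrec.snd)))).to_comp)
  · intro s
    obtain ⟨k, hk⟩ := (eΦ s (encode (a s, a' s, b s))).1 (by
      simp [seq_eq_bind_map])
    exact ⟨k, _, hk⟩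
  · intro s k v hv
    have h5 := (eΦ s (encode v)).2 ⟨k, hv⟩
    have h6 : v = (a s, a' s, b s) := by
      apply encode_injective
      simpa [seq_eq_bind_map] using h5
    rw [h4 s, h6]

theorem ktrivial {A : ℕ → Bool} (h : KTrivial A) : OWR.KTrivial A := by
  obtain ⟨U, hU, h⟩ := h
  refine ⟨U, ⟨⟨hU.pfm.partrec, hU.pfm.pf⟩, fun M hM => hU.opt M ⟨hM.partrec, hM.pf⟩⟩, h⟩

/-- **Every K-trivial set is low for Oberwolfach randomness.** -/
theorem result (A : ℕ → Bool) (hA : KTrivial A) : LowForOW A := by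
  intro Z hZ G β b ht
  refine OWR.low_of_ktrivial A (ktrivial hA) Z ?_ G β b (sigma_oracle ht.sigma)
    (rat_oracle ht.comp) ⟨ht.anti, ht.mono, ht.lim, ht.bound⟩
  intro G' β' b' h1 h2 h3
  exact hZ G' β' b' ⟨sigma_empty h1, rat_empty h2, h3.anti, h3.mono, h3.lim, h3.bound⟩

end Pool.Agent.Results.MP_e7a618_lc.KTrivialLow
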